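import Mathlib

/-!
# The two length-five unitriangular products differ in `SL₂(k[X])`

The last row of the product `l(X) u(X) l(X) u(X) l(X)` is `(c, d)` with `c = X⁵ + 4X³ + 3X` and
`d = X⁴ + 3X² + 1`. If the matrix were equal to `u(b₁) l(b₂) u(b₃) l(b₄) u(b₅)`, then
`c = b₂ + (1 + b₂b₃)b₄` and `d = (1 + b₂b₃) + c b₅`. A comparison of degrees shows that this is
impossible.
-/

set_option autoImplicit false

namespace Pool.Agent.Results.MP_b8636a_al.RankOne

open Polynomial Matrix Pointwise

universe u

/-- The upper unitriangular subgroup `U` of `SLₙ(R)`, the Chevalley group of type `A_{n-1}`, as a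
set. -/
def upper (n : ℕ) (R : Type u) [CommRing R] : Set (Matrix.SpecialLinearGroup (Fin n) R) :=
  {g | (∀ i, g i i = 1) ∧ ∀ i j, j < i → g i j = 0}

/-- The lower unitriangular subgroup `U⁻` of `SLₙ(R)`, as a set. -/
def lower (n : ℕ) (R : Type u) [CommRing R] : Set (Matrix.SpecialLinearGroup (Fin n) R) :=
  {g | (∀ i, g i i = 1) ∧ ∀ i j, i < j → g i j = 0}

section degrees

variable {k : Type u} [Field k]

lemma natDegree_c : (X ^ 5 + 4 * X ^ 3 + 3 * X : k[X]).natDegree = 5 := by compute_degree!

lemma natDegree_d : (X ^ 4 + 3 * X ^ 2 + 1 : k[X]).natDegree = 4 := by compute_degree!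

lemma natDegree_d_sub : (X ^ 4 + 3 * X ^ 2 : k[X]).natDegree = 4 := by compute_degree!

lemma natDegree_r : (X ^ 3 + 2 * X : k[X]).natDegree = 3 := by compute_degree!

/-- the degree argument -/
lemma no_solution (b₂ b₃ b₄ b₅ : k[X])
    (h1 : (X ^ 5 + 4 * X ^ 3 + 3 * X : k[X]) = b₂ + (1 + b₂ * b₃) * b₄)
    (h2 : (X ^ 4 + 3 * X ^ 2 + 1 : k[X]) =
      (1 + b₂ * b₃) + (X ^ 5 + 4 * X ^ 3 + 3 * X) * b₅) : False := by
  obtain ⟨c, hc⟩ : ∃ c : k[X], c = X ^ 5 + 4 * X ^ 3 + 3 * X := ⟨_, rfl⟩
  obtain ⟨d, hd⟩ : ∃ d : k[X], d = X ^ 4 + 3 * X ^ 2 + 1 := ⟨_, rfl⟩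
  obtain ⟨r, hr⟩ : ∃ r : k[X], r = X ^ 3 + 2 * X := ⟨_, rfl⟩
  have hcd : c = X * d + r := by rw [hc, hd, hr]; ring
  have dc : c.natDegree = 5 := hc ▸ natDegree_c
  have dd : d.natDegree = 4 := hd ▸ natDegree_d
  have dr : r.natDegree = 3 := hr ▸ natDegree_r
  have dd1 : (d - 1).natDegree = 4 := by
    rw [hd, add_sub_cancel_right]
    exact natDegree_d_sub
  have hd1 : d - 1 ≠ 0 := by
    intro h
    rw [h, natDegree_zero] at dd1
    omega
  have hr0 : r ≠ 0 := by
    intro h
    rw [h, natDegree_zero] at dr
    omega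
  have hd0 : d ≠ 0 := by
    intro h
    rw [h, natDegree_zero] at dd
    omega
  have hc0 : c ≠ 0 := by
    intro h
    rw [h, natDegree_zero] at dc
    omega
  rw [← hc] at h1 h2
  rw [← hd] at h2
  -- general consequences
  have e1 : c = b₂ * (1 + b₃ * b₄) + b₄ := by rw [h1]; ring
  by_cases h5 : b₅ = 0
  · rw [h5, mul_zero, add_zero] at h2
    rw [← h2] at h1
    have e2 : b₂ * b₃ = d - 1 := by rw [h2]; ring
    have hb2 : b₂ ≠ 0 := by
      rintro rfl
      rw [zero_mul] at e2
      exact hd1 e2.symm
    have hb3 : b₃ ≠ 0 := by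
      rintro rfl
      rw [mul_zero] at e2
      exact hd1 e2.symm
    have e3 : b₂ = (X - b₄) * d + r := by linear_combination hcd - h1
    have e4 : b₂.natDegree + b₃.natDegree = 4 := by rw [← natDegree_mul hb2 hb3, e2, dd1]
    by_cases hs : X - b₄ = 0
    · rw [hs, zero_mul, zero_add] at e3
      have e5 : r * (b₃ - X) = X ^ 2 := by
        rw [e3] at e2
        rw [mul_sub, e2, hd, hr]
        ring
      have hX : (X ^ 2 : k[X]) ≠ 0 := pow_ne_zero 2 X_ne_zero
      have hb : b₃ - X ≠ 0 := by
        intro h
        rw [h, mul_zero] at e5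
        exact hX e5.symm
      have := congrArg natDegree e5
      rw [natDegree_mul hr0 hb, dr, natDegree_X_pow] at this
      omega
    · have e5 : b₂.natDegree = (X - b₄).natDegree + 4 := by
        rw [e3, natDegree_add_eq_left_of_natDegree_lt, natDegree_mul hs hd0, dd]
        rw [natDegree_mul hs hd0, dd, dr]
        omega
      have e6 : (X - b₄).natDegree = 0 := by omega
      have e7 : b₃.natDegree = 0 := by omega
      obtain ⟨σ, hσ⟩ := natDegree_eq_zero.1 e6
      obtain ⟨τ, hτ⟩ := natDegree_eq_zero.1 e7
      rw [← hσ] at e3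
      rw [← hτ] at e2 hb3
      have hτ0 : τ ≠ 0 := by
        rintro rfl
        exact hb3 C_0
      have e8 : C (σ * τ - 1) * d = -1 - C τ * r := by
        rw [C_sub, C_mul, C_1]
        rw [e3] at e2
        linear_combination e2
      by_cases hst : σ * τ - 1 = 0
      · rw [hst, C_0, zero_mul] at e8
        have e9 : C τ * r = -1 := by linear_combination e8
        have := congrArg natDegree e9
        rw [natDegree_C_mul hτ0, dr, natDegree_neg, natDegree_one] at this
        omega
      · have := congrArg natDegree e8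
        rw [natDegree_C_mul hst, dd] at this
        have h9 : (-1 - C τ * r).natDegree ≤ 3 := by
          refine (natDegree_sub_le _ _).trans ?_
          rw [natDegree_neg, natDegree_one, natDegree_C_mul hτ0, dr]
          exact le_rfl
        omega
  · -- `b₅ ≠ 0`
    have e2 : b₂ * b₃ = (d - 1) - c * b₅ := by rw [h2]; ring
    have hcb : (c * b₅).natDegree = 5 + b₅.natDegree := by rw [natDegree_mul hc0 h5, dc]
    have e3 : (b₂ * b₃).natDegree = 5 + b₅.natDegree := by
      rw [e2, natDegree_sub_eq_right_of_natDegree_lt, hcb]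
      rw [hcb, dd1]
      omega
    have hbb : b₂ * b₃ ≠ 0 := by
      intro h
      rw [h, natDegree_zero] at e3
      omega
    have hb2 : b₂ ≠ 0 := left_ne_zero_of_mul hbb
    have hb3 : b₃ ≠ 0 := right_ne_zero_of_mul hbb
    rw [natDegree_mul hb2 hb3] at e3
    by_cases h4 : b₄ = 0
    · have e4 : c * (b₃ + b₅) = d - 1 := by
        rw [h4, mul_zero, add_zero] at h1
        rw [mul_add, h2, ← h1]
        ring
      have hb : b₃ + b₅ ≠ 0 := by
        intro h
        rw [h, mul_zero] at e4
        exact hd1 e4.symm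
      have := congrArg natDegree e4
      rw [natDegree_mul hc0 hb, dc, dd1] at this
      omega
    · -- compare degrees in `c - b₄ = b₂ (1 + b₃ b₄)`
      have e4 : c - b₄ = b₂ * (1 + b₃ * b₄) := by rw [e1]; ring
      by_cases hu : 1 + b₃ * b₄ = 0
      · -- then `b₄` is a constant
        have e5 : b₃ * b₄ = -1 := by linear_combination hu
        have e6 : b₄.natDegree = 0 := by
          have := congrArg natDegree e5
          rw [natDegree_mul hb3 h4, natDegree_neg, natDegree_one] at this
          omega
        rw [hu, mul_zero, sub_eq_zero] at e4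
        rw [← e4, dc] at e6
        omega
      · have e5 : (c - b₄).natDegree = b₂.natDegree + (1 + b₃ * b₄).natDegree := by
          rw [e4, natDegree_mul hb2 hu]
        by_cases h34 : b₃.natDegree + b₄.natDegree = 0
        · -- `b₃` and `b₄` are constants, so `deg b₂ = 5 + deg b₅` and `deg b₂ = 5`
          have e6 : (1 + b₃ * b₄).natDegree = 0 := by
            have : (1 + b₃ * b₄).natDegree ≤ 0 := by
              refine (natDegree_add_le _ _).trans ?_
              rw [natDegree_one, natDegree_mul hb3 h4, h34]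
              exact le_rfl
            omega
          have e7 : (c - b₄).natDegree = 5 := by
            rw [natDegree_sub_eq_left_of_natDegree_lt, dc]
            rw [dc]
            omega
          have e8 : b₅.natDegree = 0 := by omega
          -- everything is constant: `d` is a linear polynomial in `b₂`
          have e9 : d - (1 + b₄ * b₅) = b₂ * (b₃ + b₅ + b₃ * b₄ * b₅) := by
            rw [h2, e1]
            ring
          have e10 : (d - (1 + b₄ * b₅)).natDegree = 4 := by
            rw [natDegree_sub_eq_left_of_natDegree_lt, dd]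
            rw [dd]
            refine lt_of_le_of_lt (natDegree_add_le _ _) ?_
            rw [natDegree_one, natDegree_mul h4 h5]
            omega
          have hw : b₃ + b₅ + b₃ * b₄ * b₅ ≠ 0 := by
            intro h
            rw [h, mul_zero] at e9
            rw [e9, natDegree_zero] at e10
            omega
          rw [e9, natDegree_mul hb2 hw] at e10
          omega
        · have e6 : (1 + b₃ * b₄).natDegree = b₃.natDegree + b₄.natDegree := by
            rw [natDegree_add_eq_right_of_natDegree_lt, natDegree_mul hb3 h4]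
            rw [natDegree_one, natDegree_mul hb3 h4]
            omega
          -- `deg (c - b₄) = 5 + deg b₅ + deg b₄`
          have e7 : (c - b₄).natDegree = 5 + b₅.natDegree + b₄.natDegree := by omega
          have e8 : (c - b₄).natDegree ≤ max 5 b₄.natDegree := dc ▸ natDegree_sub_le c b₄
          have e9 : b₅.natDegree = 0 ∧ b₄.natDegree = 0 := by
            rcases le_total 5 b₄.natDegree with h | h
            · rw [max_eq_right h] at e8
              omega
            · rw [max_eq_left h] at e8
              omega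
          have e10 : d - (1 + b₄ * b₅) = b₂ * (b₃ * (1 + b₄ * b₅) + b₅) := by
            rw [h2, e1]
            ring
          have e11 : (b₄ * b₅).natDegree = 0 := by rw [natDegree_mul h4 h5]; omega
          have e12 : (d - (1 + b₄ * b₅)).natDegree = 4 := by
            rw [natDegree_sub_eq_left_of_natDegree_lt, dd]
            rw [dd]
            refine lt_of_le_of_lt (natDegree_add_le _ _) ?_
            rw [natDegree_one, e11]
            omega
          by_cases hv : 1 + b₄ * b₅ = 0
          · -- `d = b₂ b₅`, so `d` divides `c - b₄`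
            rw [hv, mul_zero, zero_add, sub_zero] at e10
            have e13 : (r - b₄) * b₅ = d * (1 + b₃ * b₄ - X * b₅) := by
              have : (c - b₄) * b₅ = d * (1 + b₃ * b₄) := by rw [e4, e10]; ring
              rw [hcd] at this
              linear_combination this
            have e14 : (r - b₄).natDegree = 3 := by
              rw [natDegree_sub_eq_left_of_natDegree_lt, dr]
              rw [dr]
              omega
            have e15 : r - b₄ ≠ 0 := by
              intro h
              rw [h, natDegree_zero] at e14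
              omega
            have e16 : 1 + b₃ * b₄ - X * b₅ ≠ 0 := by
              intro h
              rw [h, mul_zero] at e13
              exact mul_ne_zero e15 h5 e13
            have := congrArg natDegree e13
            rw [natDegree_mul e15 h5, natDegree_mul hd0 e16, e14, dd] at this
            omega
          · have hv0 : (1 + b₄ * b₅).natDegree = 0 := by
              have : (1 + b₄ * b₅).natDegree ≤ 0 := by
                refine (natDegree_add_le _ _).trans ?_
                rw [natDegree_one, e11]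
                exact le_rfl
              omega
            have e13 : (b₃ * (1 + b₄ * b₅) + b₅).natDegree = b₃.natDegree := by
              rw [natDegree_add_eq_left_of_natDegree_lt, natDegree_mul hb3 hv, hv0, add_zero]
              rw [natDegree_mul hb3 hv]
              omega
            have hw : b₃ * (1 + b₄ * b₅) + b₅ ≠ 0 := by
              intro h
              rw [h, natDegree_zero] at e13
              omega
            rw [e10, natDegree_mul hb2 hw, e13] at e12
            omega

end degrees

section matrices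

variable {R : Type u} [CommRing R]

/-- `u(a)` -/
def uu (a : R) : Matrix.SpecialLinearGroup (Fin 2) R := ⟨!![1, a; 0, 1], by simp [Matrix.det_fin_two]⟩

/-- `l(a)` -/
def ll (a : R) : Matrix.SpecialLinearGroup (Fin 2) R := ⟨!![1, 0; a, 1], by simp [Matrix.det_fin_two]⟩

lemma uu_mem (a : R) : uu a ∈ upper 2 R := by
  constructor
  · intro i
    fin_cases i <;> rfl
  · intro i j h
    fin_cases i <;> fin_cases j <;> first | rfl | exact absurd h (by decide)

lemma ll_mem (a : R) : ll a ∈ lower 2 R := by
  constructor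
  · intro i
    fin_cases i <;> rfl
  · intro i j h
    fin_cases i <;> fin_cases j <;> first | rfl | exact absurd h (by decide)

lemma eq_uu {g : Matrix.SpecialLinearGroup (Fin 2) R} (h : g ∈ upper 2 R) : ∃ a, g = uu a := by
  refine ⟨g 0 1, ?_⟩
  ext i j
  fin_cases i <;> fin_cases j
  · exact h.1 0
  · rfl
  · exact h.2 1 0 (by decide)
  · exact h.1 1

lemma eq_ll {g : Matrix.SpecialLinearGroup (Fin 2) R} (h : g ∈ lower 2 R) : ∃ a, g = ll a := by
  refine ⟨g 1 0, ?_⟩
  ext i j
  fin_cases i <;> fin_cases j
  · exact h.1 0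
  · exact h.2 0 1 (by decide)
  · rfl
  · exact h.1 1

lemma transpose_upper {g : Matrix.SpecialLinearGroup (Fin 2) R} (h : g ∈ upper 2 R) :
    g.transpose ∈ lower 2 R := ⟨fun i => h.1 i, fun i j hij => h.2 j i hij⟩

lemma transpose_lower {g : Matrix.SpecialLinearGroup (Fin 2) R} (h : g ∈ lower 2 R) :
    g.transpose ∈ upper 2 R := ⟨fun i => h.1 i, fun i j hij => h.2 j i hij⟩

end matrices

/-- **Main result.** For every field `k`, in the group `SL₂(k[X])`, the Chevalley group of type `A₁`
over the polynomial ring `k[X]`, neither of the two sets `U⁻UU⁻UU⁻` and `UU⁻UU⁻U` is contained in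
the other one. -/
theorem result (k : Type u) [Field k] :
    (¬ lower 2 k[X] * upper 2 k[X] * lower 2 k[X] * upper 2 k[X] * lower 2 k[X] ⊆
      upper 2 k[X] * lower 2 k[X] * upper 2 k[X] * lower 2 k[X] * upper 2 k[X]) ∧
    (¬ upper 2 k[X] * lower 2 k[X] * upper 2 k[X] * lower 2 k[X] * upper 2 k[X] ⊆
      lower 2 k[X] * upper 2 k[X] * lower 2 k[X] * upper 2 k[X] * lower 2 k[X]) := by
  have key : ll X * uu X * ll X * uu X * ll X ∉
      upper 2 k[X] * lower 2 k[X] * upper 2 k[X] * lower 2 k[X] * upper 2 k[X] := by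
    rintro ⟨_, ⟨_, ⟨_, ⟨g1, h1, g2, h2, rfl⟩, g3, h3, rfl⟩, g4, h4, rfl⟩, g5, h5, h⟩
    obtain ⟨b₁, rfl⟩ := eq_uu h1
    obtain ⟨b₂, rfl⟩ := eq_ll h2
    obtain ⟨b₃, rfl⟩ := eq_uu h3
    obtain ⟨b₄, rfl⟩ := eq_ll h4
    obtain ⟨b₅, rfl⟩ := eq_uu h5
    have h' : uu b₁ * ll b₂ * uu b₃ * ll b₄ * uu b₅ = ll X * uu X * ll X * uu X * ll X := h
    have h'' : ((uu b₁ * ll b₂ * uu b₃ * ll b₄ * uu b₅ : Matrix.SpecialLinearGroup (Fin 2) k[X]) :
        Matrix (Fin 2) (Fin 2) k[X]) =
        ((ll X * uu X * ll X * uu X * ll X : Matrix.SpecialLinearGroup (Fin 2) k[X]) :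
        Matrix (Fin 2) (Fin 2) k[X]) := by rw [h']
    simp only [Matrix.SpecialLinearGroup.coe_mul] at h''
    have e1 := congrFun (congrFun h'' 1) 0
    have e2 := congrFun (congrFun h'' 1) 1
    simp [uu, ll, Matrix.mul_apply, Fin.sum_univ_two] at e1 e2
    refine no_solution b₂ b₃ b₄ b₅ ?_ ?_
    · linear_combination -e1
    · linear_combination -e2 + b₅ * e1
  constructor
  · intro h
    exact key (h ⟨_, ⟨_, ⟨_, ⟨_, ll_mem X, _, uu_mem X, rfl⟩, _, ll_mem X, rfl⟩, _, uu_mem X, rfl⟩,
      _, ll_mem X, rfl⟩)
  · intro h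
    have h1 := h ⟨_, ⟨_, ⟨_, ⟨_, uu_mem X, _, ll_mem X, rfl⟩, _, uu_mem X, rfl⟩, _, ll_mem X, rfl⟩,
      _, uu_mem X, rfl⟩
    obtain ⟨_, ⟨_, ⟨_, ⟨g1, h1, g2, h2, rfl⟩, g3, h3, rfl⟩, g4, h4, rfl⟩, g5, h5, h6⟩ := h1
    apply key
    have h7 := congrArg Matrix.SpecialLinearGroup.transpose h6
    have tr_mul : ∀ a b : Matrix.SpecialLinearGroup (Fin 2) k[X],
        (a * b).transpose = b.transpose * a.transpose := by
      intro a b
      apply Subtype.ext
      exact Matrix.transpose_mul _ _
    have tr_uu : (uu X : Matrix.SpecialLinearGroup (Fin 2) k[X]).transpose = ll X := by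
      ext i j
      fin_cases i <;> fin_cases j <;> rfl
    have tr_ll : (ll X : Matrix.SpecialLinearGroup (Fin 2) k[X]).transpose = uu X := by
      ext i j
      fin_cases i <;> fin_cases j <;> rfl
    simp only [tr_mul, tr_uu, tr_ll] at h7
    have e : ll X * uu X * ll X * uu X * ll X =
        g5.transpose * g4.transpose * g3.transpose * g2.transpose * g1.transpose := by
      simp only [mul_assoc] at h7 ⊢
      exact h7.symm
    rw [e]
    exact ⟨_, ⟨_, ⟨_, ⟨_, transpose_lower h5, _, transpose_upper h4, rfl⟩, _, transpose_lower h3,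
      rfl⟩, _, transpose_upper h2, rfl⟩, _, transpose_lower h1, rfl⟩

end Pool.Agent.Results.MP_b8636a_al.RankOne
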